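import Pool.Agent.T9h68.UM.Cube2

/-!
# Uniform mixing on cubelike graphs: the cotangent of the mixing time, and small valency

Let `X` be a cubelike graph, that is the Cayley graph of `(ℤ/2)^d` and a set `C` of nonzero elements,
and suppose that it admits uniform mixing at the time `t`.  For `b ≠ 0` let `D b` be the set of the
`c ∈ C` with `b ⬝ c = 1`; it has `(|C| - θ b) / 2` elements, `θ b` the eigenvalue of `b`.  Then
`cot (2t)` is an algebraic integer; if all zero-sum subsets of some `D b` have a number of elements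
divisible by four then `t` is an odd multiple of `π / 4` (`cos (2t) = 0`); and if some `D b` has at most
six elements or at most one nonempty zero-sum subset then `t` is an odd multiple of `π / 4` or of
`π / 8` (`cos (4t) = 0`).  This is so for all `C` with at most 13 elements, and for all `C` with
`2 ^ |C| < 2 ^ d * (1 + |C| + (|C| choose 2) + (|C| choose 3))`.

Proof.  Uniform mixing says that `χ ↦ z ^ θ χ`, `z = e^{it}`, is a bent function, so for `b ≠ 0`
`0 = ∑ a, z ^ (θ (a + b) - θ a) = ∑ a, ∏ c ∈ D b, (cos (2t) - i sin (2t) χ_c a)`, and by expansion of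
the product this is `2 ^ d * ∑ E, cos (2t) ^ (|D b| - |E|) * (-i sin (2t)) ^ |E|`, where `E` runs over
the zero-sum subsets of `D b`.  These have an even number of elements, not two.  The last part is the
Hamming bound for the code `{D b}`, the part before is an average over `b`.
-/

set_option autoImplicit false

open Finset
open scoped Matrix

namespace Pool.Agent.Results.MP_e32761_co.CubelikeSmallValency

/-- The adjacency matrix of the Cayley graph of the group `(ℤ/2)^(d+1)` and the set `C`. -/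
noncomputable def adjacency {d : ℕ} (C : Finset (Fin (d + 1) → ZMod 2)) :
    Matrix (Fin (d + 1) → ZMod 2) (Fin (d + 1) → ZMod 2) ℂ :=
  Matrix.of fun x y => if y - x ∈ C then (1 : ℂ) else 0

/-- The graph admits uniform mixing at the time `t`: all entries of `exp (itA)` have the absolute
value `1 / √n`, `n = 2 ^ (d + 1)`. -/
def UniformMixing {d : ℕ} (C : Finset (Fin (d + 1) → ZMod 2)) (t : ℝ) : Prop :=
  ∀ a b, ‖NormedSpace.exp ((Complex.I * (t : ℂ)) • adjacency C) a b‖ ^ 2 = 1 / (2 : ℝ) ^ (d + 1)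

/-- The elements of `C` with `b ⬝ᵥ c = 1`. -/
def cut {d : ℕ} (C : Finset (Fin (d + 1) → ZMod 2)) (b : Fin (d + 1) → ZMod 2) :
    Finset (Fin (d + 1) → ZMod 2) :=
  C.filter fun c => b ⬝ᵥ c = 1

/-- `t` is an odd multiple of `x`. -/
def OddMultiple (x t : ℝ) : Prop := ∃ k : ℤ, t = (2 * k + 1) * x

/-- **Uniform mixing on cubelike graphs.** Let `0 ∉ C ⊆ (ℤ/2)^(d+1)` and let the Cayley graph admit
uniform mixing at the time `t`.  (1) `sin (2t) ≠ 0` and `cot (2t)` is an algebraic integer.  (2) If for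
some `b ≠ 0` the number of elements of every zero-sum subset of `cut C b` is divisible by four, then
`t` is an odd multiple of `π / 4`.  (3) If for some `b ≠ 0` the set `cut C b` has at most six elements,
or at most one nonempty zero-sum subset, then `t` is an odd multiple of `π / 4` or `π / 8`.  (4) This is
so if `|C| ≤ 13`, and (5) if `2 ^ |C| < 2 ^ (d + 1) * (1 + |C| + (|C| choose 2) + (|C| choose 3))`. -/
theorem result (d : ℕ) (C : Finset (Fin (d + 1) → ZMod 2)) (h0 : 0 ∉ C) (t : ℝ)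
    (hmix : UniformMixing C t) :
    (Real.sin (2 * t) ≠ 0 ∧ IsIntegral ℤ (Real.cos (2 * t) / Real.sin (2 * t))) ∧
    (∀ b, b ≠ 0 → (∀ E ⊆ cut C b, ∑ c ∈ E, c = 0 → 4 ∣ E.card) → OddMultiple (Real.pi / 4) t) ∧
    (∀ b, b ≠ 0 →
      ((cut C b).card ≤ 6 ∨ ∃ E₀, ∀ E ⊆ cut C b, ∑ c ∈ E, c = 0 → E = ∅ ∨ E = E₀) →
      OddMultiple (Real.pi / 4) t ∨ OddMultiple (Real.pi / 8) t) ∧
    (C.card ≤ 13 → OddMultiple (Real.pi / 4) t ∨ OddMultiple (Real.pi / 8) t) ∧
    (2 ^ C.card < 2 ^ (d + 1) * (1 + C.card + C.card.choose 2 + C.card.choose 3) →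
      OddMultiple (Real.pi / 4) t ∨ OddMultiple (Real.pi / 8) t) := by
  have odd4 : Real.cos (2 * t) = 0 → OddMultiple (Real.pi / 4) t := by
    intro h
    obtain ⟨k, hk⟩ := Real.cos_eq_zero_iff.1 h
    exact ⟨k, by linarith⟩
  have odd8 : Real.cos (2 * t) = 0 ∨ Real.cos (4 * t) = 0 →
      OddMultiple (Real.pi / 4) t ∨ OddMultiple (Real.pi / 8) t := by
    rintro (h | h)
    · exact Or.inl (odd4 h)
    · obtain ⟨k, hk⟩ := Real.cos_eq_zero_iff.1 h
      exact Or.inr ⟨k, by linarith⟩
  classical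
  have hmix' : Pool.Agent.T9h68.UM.Mixes (q := 0) C t := by
    intro a b
    have h := hmix a b
    have h2 : (1 : ℝ) / (((0 : ℕ) : ℝ) + 2) ^ (d + 1) = 1 / (2 : ℝ) ^ (d + 1) := by norm_num
    rw [h2]
    exact h
  have hint : ∀ a : Pool.Agent.T9h68.UM.Gr 0 d, ∃ k : ℤ, Pool.Agent.T9h68.UM.ev C a = k :=
    fun a => Pool.Agent.T9h68.UM.ev_int C (fun c hc => by
      have h1 := Pool.Agent.T9h68.UM.add_self_Gr c
      rw [neg_eq_of_add_eq_zero_left h1]
      exact hc) (Or.inl (by norm_num)) a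
  choose m hm using hint
  have hcut : ∀ b, cut C b = Pool.Agent.T9h68.UM.Db C b := by
    intro b
    unfold cut Pool.Agent.T9h68.UM.Db
    refine filter_congr fun c _ => ?_
    have key : ∀ x : ZMod 2, x = 1 ↔ x ≠ 0 := by decide
    exact key _
  have hzs : ∀ b E, E ∈ Pool.Agent.T9h68.UM.zs (Pool.Agent.T9h68.UM.Db C b) →
      E ⊆ cut C b ∧ ∑ c ∈ E, c = 0 := by
    intro b E hE
    rw [hcut]
    exact Pool.Agent.T9h68.UM.sub_of_zs hE
  have hsin := Pool.Agent.T9h68.UM.sin_ne C t hmix' m hm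
  refine ⟨⟨hsin, ?_⟩, ?_, ?_, ?_, ?_⟩
  · have h1 := Pool.Agent.T9h68.UM.cot_int C t hmix' m hm
    have hI : IsIntegral ℤ (-Complex.I) := by
      refine IsIntegral.of_pow (n := 4) (by norm_num) ?_
      have : (-Complex.I) ^ 4 = 1 := by rw [neg_pow, Complex.I_pow_four]; norm_num
      rw [this]
      exact isIntegral_one
    have h2 := hI.mul h1
    have h3 : -Complex.I * ((Real.cos (2 * t) : ℂ) / (-Complex.I * Real.sin (2 * t))) =
        ((Real.cos (2 * t) / Real.sin (2 * t) : ℝ) : ℂ) := by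
      have h4 : -Complex.I ≠ 0 := neg_ne_zero.2 Complex.I_ne_zero
      rw [mul_div_assoc', mul_div_mul_left _ _ h4, Complex.ofReal_div]
    rw [h3] at h2
    exact (isIntegral_algebraMap_iff (R := ℤ) (A := ℝ) (B := ℂ) Complex.ofReal_injective).1 h2
  · intro b hb h
    exact odd4 (Pool.Agent.T9h68.UM.four C t hmix' m hm b hb fun E hE =>
      h E (hzs b E hE).1 (hzs b E hE).2)
  · rintro b hb (h | ⟨E₀, h⟩)
    · rw [hcut] at h
      exact odd8 (Pool.Agent.T9h68.UM.six C t hmix' m hm b hb h)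
    · exact odd8 (Pool.Agent.T9h68.UM.one C t hmix' m hm b hb E₀ fun E hE =>
        h E (hzs b E hE).1 (hzs b E hE).2)
  · intro h
    obtain ⟨b, hb, h6⟩ := Pool.Agent.T9h68.UM.exists_six C h0 h
    exact odd8 (Pool.Agent.T9h68.UM.six C t hmix' m hm b hb h6)
  · intro h
    obtain ⟨b, hb, h6⟩ := Pool.Agent.T9h68.UM.hamming C (by
      simpa [sum_range_succ, add_assoc] using h)
    exact odd8 (Pool.Agent.T9h68.UM.six C t hmix' m hm b hb h6)

end Pool.Agent.Results.MP_e32761_co.CubelikeSmallValency
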