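import Pool.Agent.T9h68.UM.Three2

/-!
# Uniform mixing times on Cayley graphs of `(ℤ/3)^d` with few generators

Let `X` be the Cayley graph of `(ℤ/3)^d` and a set `C = -C` of nonzero elements, and suppose that it
admits uniform mixing at the time `t`.  If for some `b ≠ 0` at most two elements `c` of `C` have
`b ⬝ c = 1`, then `cos (3t) = - 1 / 2`, that is `t = ± 2π / 9 + 2π k / 3`.  This is so if `X` is
regular of degree at most 6, if it is regular of degree at most 8 and `d ≥ 3`, and if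
`3 ^ (|C| / 2) < 3 ^ d * (1 + |C|)`, in particular for all `2 (d + 2)`-regular graphs with `d ≥ 3`,
`|C| = 2 (d + 2)`, and in general for `|C| / 2` up to about `d + log_3 d`.

Proof.  Let `D` be the set of the `c ∈ C` with `b ⬝ c = 1`, `z = e^{it}`, `y = z ^ 3`.  The difference
`θ (a + b) - θ a` of the eigenvalues is `3 ∑ c ∈ D, κ (a ⬝ c)`, `κ = -1, 0, 1` at `0, 1, 2`.  Uniform
mixing says that `z ^ θ` is a bent function, so `∑ a, ∏ c ∈ D, y ^ κ (a ⬝ c) = 0`.  If `D` has one or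
two elements, these are linearly independent and the sum is `3 ^ d * ((y⁻¹ + 1 + y) / 3) ^ |D|`.  The
rest is an average over `b` and the Hamming bound for the ternary code of the words `b ⬝ c`, where `c`
runs over half of `C`.
-/

set_option autoImplicit false

open Finset
open scoped Matrix

namespace Pool.Agent.Results.MP_e32761_co.TernaryMixingTimes

/-- The adjacency matrix of the Cayley graph of the group `(ℤ/3)^(d+1)` and the set `C`. -/
noncomputable def adjacency {d : ℕ} (C : Finset (Fin (d + 1) → ZMod 3)) :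
    Matrix (Fin (d + 1) → ZMod 3) (Fin (d + 1) → ZMod 3) ℂ :=
  Matrix.of fun x y => if y - x ∈ C then (1 : ℂ) else 0

/-- The graph admits uniform mixing at the time `t`: all entries of `exp (itA)` have the absolute
value `1 / √n`, `n = 3 ^ (d + 1)`. -/
def UniformMixing {d : ℕ} (C : Finset (Fin (d + 1) → ZMod 3)) (t : ℝ) : Prop :=
  ∀ a b, ‖NormedSpace.exp ((Complex.I * (t : ℂ)) • adjacency C) a b‖ ^ 2 = 1 / (3 : ℝ) ^ (d + 1)

/-- `t = 2π/9 + 2πk/3` or `t = - 2π/9 + 2πk/3` for an integer `k`. -/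
def NinthTime (t : ℝ) : Prop :=
  ∃ k : ℤ, t = 2 * Real.pi / 9 + 2 * Real.pi * k / 3 ∨ t = -(2 * Real.pi / 9) + 2 * Real.pi * k / 3

/-- **Uniform mixing times on Cayley graphs of `(ℤ/3)^(d+1)`.** Let `C = -C`, `0 ∉ C`, and let the
Cayley graph admit uniform mixing at the time `t`.  Then `t = ± 2π/9 + 2πk/3` if (1) for some `b ≠ 0` at
most two elements `c` of `C` have `b ⬝ᵥ c = 1`, (2) `|C| ≤ 6`, (3) `|C| ≤ 8` and the rank `d + 1` is at
least 3, (4) `3 ^ (|C| / 2) < 3 ^ (d + 1) * (1 + |C|)`, (5) `|C| = 2 (d + 3)` and the rank `d + 1` is at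
least 3. -/
theorem result (d : ℕ) (C : Finset (Fin (d + 1) → ZMod 3)) (h0 : 0 ∉ C) (hC : ∀ c ∈ C, -c ∈ C)
    (t : ℝ) (hmix : UniformMixing C t) :
    (∀ b, b ≠ 0 → (C.filter fun c => b ⬝ᵥ c = 1).card ≤ 2 → NinthTime t) ∧
    (C.card ≤ 6 → NinthTime t) ∧
    (C.card ≤ 8 → 3 ≤ d + 1 → NinthTime t) ∧
    (3 ^ (C.card / 2) < 3 ^ (d + 1) * (1 + C.card) → NinthTime t) ∧
    (C.card = 2 * ((d + 1) + 2) → 3 ≤ d + 1 → NinthTime t) := by
  classical
  have hmix' : Pool.Agent.T9h68.UM.Mixes (q := 1) C t := by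
    intro a b
    have h := hmix a b
    have h2 : (1 : ℝ) / (((1 : ℕ) : ℝ) + 2) ^ (d + 1) = 1 / (3 : ℝ) ^ (d + 1) := by norm_num
    rw [h2]
    exact h
  have hint : ∀ a : Pool.Agent.T9h68.UM.Gr 1 d, ∃ k : ℤ, Pool.Agent.T9h68.UM.ev C a = k :=
    fun a => Pool.Agent.T9h68.UM.ev_int C hC (Or.inr (by norm_num)) a
  choose m hm using hint
  have hfin : 2 * Real.cos (3 * t) + 1 = 0 → NinthTime t := by
    intro h
    have h1 : Real.cos (3 * t) = Real.cos (2 * Real.pi / 3) := by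
      have h2 : Real.cos (2 * Real.pi / 3) = -1 / 2 := by
        have h3 : 2 * Real.pi / 3 = Real.pi - Real.pi / 3 := by ring
        rw [h3, Real.cos_pi_sub, Real.cos_pi_div_three]
        norm_num
      rw [h2]
      linarith
    rw [Real.cos_eq_cos_iff] at h1
    obtain ⟨k, hk | hk⟩ := h1
    · exact ⟨-k, Or.inl (by push_cast; linarith)⟩
    · exact ⟨k, Or.inr (by linarith)⟩
  have hpair : ∀ b : Pool.Agent.T9h68.UM.Gr 1 d, b ≠ 0 →
      (Pool.Agent.T9h68.UM.Dp C b).card ≤ 2 → NinthTime t := fun b hb h =>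
    hfin (Pool.Agent.T9h68.UM.pairs_two C hC t hmix' m hm b hb h)
  have hn : 1 ≤ 3 ^ d := Nat.one_le_pow _ _ (by norm_num)
  have hle : C.card ≤ 3 ^ (d + 1) - 1 := by
    have h9 : C ⊆ univ.erase (0 : Fin (d + 1) → ZMod 3) := by
      intro c hc
      rw [mem_erase]
      exact ⟨fun h => h0 (h ▸ hc), mem_univ _⟩
    have h10 := card_le_card h9
    rw [card_erase_of_mem (mem_univ _), card_univ, Fintype.card_fun, ZMod.card,
      Fintype.card_fin] at h10
    exact h10
  have hmean : 3 ^ (d + 1) * C.card < 9 * (3 ^ (d + 1) - 1) → NinthTime t := by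
    intro h
    obtain ⟨b, hb, h2⟩ := Pool.Agent.T9h68.UM.exists_two C h0 hC h
    exact hpair b hb h2
  have hham : 3 ^ (C.card / 2) < 3 ^ (d + 1) * (1 + C.card) → NinthTime t := by
    intro h
    obtain ⟨b, hb, h2⟩ := Pool.Agent.T9h68.UM.hamming3 C h0 hC h
    exact hpair b hb h2
  refine ⟨fun b hb h => hpair b hb h, ?_, ?_, hham, ?_⟩
  · intro h
    refine hmean ?_
    rw [pow_succ] at hle ⊢
    rcases hn.eq_or_lt with h1 | h1
    · rw [← h1] at hle ⊢
      omega
    · have : 3 ^ d * 3 * C.card ≤ 3 ^ d * 3 * 6 := Nat.mul_le_mul_left _ h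
      omega
  · intro h hd
    refine hmean ?_
    have h1 : 3 ^ 3 ≤ 3 ^ (d + 1) := Nat.pow_le_pow_right (by norm_num) hd
    have : 3 ^ (d + 1) * C.card ≤ 3 ^ (d + 1) * 8 := Nat.mul_le_mul_left _ h
    omega
  · intro h hd
    refine hham ?_
    rw [h]
    have h1 : 2 * ((d + 1) + 2) / 2 = (d + 1) + 2 := by omega
    rw [h1, pow_add]
    refine Nat.mul_lt_mul_of_pos_left ?_ (by positivity)
    omega

end Pool.Agent.Results.MP_e32761_co.TernaryMixingTimes
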