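import Pool.Agent.T9h68.UM.Spec

/-!
# Uniform mixing on Cayley graphs of `(ℤ/q)^d` with integral eigenvalues

Let `X` be the Cayley graph of `(ℤ/q)^d` and a connection set `C = -C`, with adjacency matrix `A`, and
let all eigenvalues of `A` be integers (this is always so for `q = 2, 3, 4, 6`).  If all entries of
`exp (itA)` have the same absolute value, then `z = e^{it}` is a unit of the ring of algebraic
integers, its minimal polynomial has no positive real zero and divides `q^d` at `1`.  It follows that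
`t / π` is rational if `cos (k t)` is rational for some `k ≥ 1`, in particular if for some nontrivial
character `ψ` the differences `θ (χ ψ) - θ χ` of the eigenvalues are `0`, `g` or `- g`.

Proof.  The first row of `exp (itA)` has the Fourier transform `z ^ θ χ`, so uniform mixing says that
the function `χ ↦ z ^ θ χ` is bent: `F x * F' x = n` for `F x = ∑ z ^ θ χ * χ (-x)` and
`F' x = ∑ z ^ (- θ χ) * χ x`.  Let `v` be a valuation of the field of complex numbers with `v z > 1`.
The largest eigenvalue `θ 1 = |C|` is simple, so `v (F x) = v z ^ |C|` for all `x`, hence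
`v (F' x) = v n * v z ^ (- |C|)` for all `x`, and by Fourier inversion
`v n * v z ^ (- θ χ) ≤ v n * v z ^ (- |C|)` for all `χ`, a contradiction.
-/

set_option autoImplicit false

open Finset Polynomial
open scoped Matrix

namespace Pool.Agent.Results.MP_e32761_co.UnitsAtMixingTimes

/-- The adjacency matrix of the Cayley graph of the group `(ℤ/(q+2))^(d+1)` and the set `C`. -/
noncomputable def adjacency {q d : ℕ} (C : Finset (Fin (d + 1) → ZMod (q + 2))) :
    Matrix (Fin (d + 1) → ZMod (q + 2)) (Fin (d + 1) → ZMod (q + 2)) ℂ :=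
  Matrix.of fun x y => if y - x ∈ C then (1 : ℂ) else 0

/-- The graph admits uniform mixing at the time `t`: all entries of `exp (itA)` have the absolute
value `1 / √n`, `n = (q + 2) ^ (d + 1)`. -/
def UniformMixing {q d : ℕ} (C : Finset (Fin (d + 1) → ZMod (q + 2))) (t : ℝ) : Prop :=
  ∀ a b, ‖NormedSpace.exp ((Complex.I * (t : ℂ)) • adjacency C) a b‖ ^ 2 =
    1 / ((q + 2 : ℝ) ^ (d + 1))

/-- The eigenvalue of the character `x ↦ exp (2 π i (a ⬝ x) / (q + 2))`: the sum of its values at the
elements of `C`. -/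
noncomputable def eigenvalue {q d : ℕ} (C : Finset (Fin (d + 1) → ZMod (q + 2)))
    (a : Fin (d + 1) → ZMod (q + 2)) : ℂ :=
  ∑ c ∈ C, ZMod.stdAddChar (a ⬝ᵥ c)

/-- **Uniform mixing on integral Cayley graphs.** Let `C = -C`, `0 ∉ C`, be a connection set in
`(ℤ/q)^d` (here `q + 2` and `d + 1` stand for `q` and `d`).
If all eigenvalues are integers and the Cayley graph admits uniform mixing at the time `t`, then
(1) `z = exp (it)` and `1 / z` are algebraic integers; (2) the value at `1` of the minimal polynomial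
of `z` over the integers divides `n = q ^ d`, and the polynomial has no positive real zero; (3) if
`cos (k t)` is rational for some `k ≥ 1` then `t / π` is rational; (4) if for some `b ≠ 0` and
`g ≥ 1` the differences of the eigenvalues of `a + b` and `a` are `0`, `g` or `- g` for all `a`, then
`t / π` is rational. (5) For `q = 2, 3, 4, 6` all eigenvalues are integers. -/
theorem result :
    (∀ (q d : ℕ) (C : Finset (Fin (d + 1) → ZMod (q + 2))), 0 ∉ C → (∀ c ∈ C, -c ∈ C) →
      (∀ θ ∈ spectrum ℂ (adjacency C), ∃ k : ℤ, θ = k) → ∀ t : ℝ, UniformMixing C t →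
      (IsIntegral ℤ (Complex.exp (Complex.I * t)) ∧
        IsIntegral ℤ (Complex.exp (Complex.I * t))⁻¹) ∧
      ((minpoly ℤ (Complex.exp (Complex.I * t))).eval 1 ∣ ((q : ℤ) + 2) ^ (d + 1) ∧
        ∀ x : ℝ, 0 < x → aeval x (minpoly ℤ (Complex.exp (Complex.I * t))) ≠ 0) ∧
      (∀ k : ℕ, 1 ≤ k → (∃ r : ℚ, Real.cos (k * t) = r) → ∃ s : ℚ, t = s * Real.pi) ∧
      ∀ (b : Fin (d + 1) → ZMod (q + 2)) (g : ℕ), b ≠ 0 → 1 ≤ g →
        (∀ a, eigenvalue C (a + b) - eigenvalue C a = 0 ∨
          eigenvalue C (a + b) - eigenvalue C a = g ∨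
          eigenvalue C (a + b) - eigenvalue C a = -g) → ∃ s : ℚ, t = s * Real.pi) ∧
    (∀ (q d : ℕ) (C : Finset (Fin (d + 1) → ZMod (q + 2))), (∀ c ∈ C, -c ∈ C) →
      q + 2 = 2 ∨ q + 2 = 3 ∨ q + 2 = 4 ∨ q + 2 = 6 →
      (∀ a, eigenvalue C a ∈ spectrum ℂ (adjacency C) ∧ ∃ k : ℤ, eigenvalue C a = k) ∧
      ∀ θ ∈ spectrum ℂ (adjacency C), ∃ k : ℤ, θ = k) := by
  refine ⟨?_, ?_⟩
  · intro q d C _ _ hint t hmix
    have hev : ∀ a : Fin (d + 1) → ZMod (q + 2), ∃ k : ℤ, Pool.Agent.T9h68.UM.ev C a = k :=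
      fun a => hint _ (Pool.Agent.T9h68.UM.ev_spec C a)
    choose m hm using hev
    have hmix' : Pool.Agent.T9h68.UM.Mixes C t := hmix
    have hu := Pool.Agent.T9h68.UM.units C t hmix' m hm
    refine ⟨hu, Pool.Agent.T9h68.UM.minpoly_props C t hmix' m hm, ?_, ?_⟩
    · rintro k hk ⟨r, hr⟩
      exact Pool.Agent.T9h68.UM.rat_of_cos t hu.1 hu.2 k hk r hr
    · intro b g hb hg hdiff
      refine Pool.Agent.T9h68.UM.two_valued C t hmix' m hm b hb g hg fun a => ?_
      have h1 : eigenvalue C (a + b) - eigenvalue C a = ((m (a + b) - m a : ℤ) : ℂ) := by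
        change Pool.Agent.T9h68.UM.ev C (a + b) - Pool.Agent.T9h68.UM.ev C a = _
        rw [hm, hm]
        push_cast
        rfl
      rcases hdiff a with h | h | h
      · left
        rw [h1] at h
        exact_mod_cast h
      · right; left
        rw [h1] at h
        exact_mod_cast h
      · right; right
        rw [h1] at h
        have h2 : (((m (a + b) - m a : ℤ)) : ℂ) = ((-(g : ℤ) : ℤ) : ℂ) := by
          rw [h]
          push_cast
          rfl
        exact_mod_cast h2
  · intro q d C hC hq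
    have h1 : ∀ a : Fin (d + 1) → ZMod (q + 2), ∃ k : ℤ, eigenvalue C a = k := by
      intro a
      refine Pool.Agent.T9h68.UM.ev_int C hC ?_ a
      rcases hq with h | h | h | h <;> rw [h] <;> norm_num
    refine ⟨fun a => ⟨Pool.Agent.T9h68.UM.ev_spec C a, h1 a⟩, fun θ hθ => ?_⟩
    obtain ⟨a, rfl⟩ := Pool.Agent.T9h68.UM.spec_ev C θ hθ
    exact h1 a

end Pool.Agent.Results.MP_e32761_co.UnitsAtMixingTimes
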